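import Pool.Agent.Q9.FJP.Cyc

/-!
# Extensions whose kernel is a product along relations which both projections kill
-/

set_option autoImplicit false

namespace Q9.FJP

open Pool.Agent.Y110.FJ (ClosedE Realized)
open Pool.Agent.Y462.SS (Closed)
open Q30.FJ (ClosedOver RealizedAut FiniteAt)

variable {V A : Type} [Group A] (E : EvenRel V A)
variable {C D : ∀ (G : Type) [Group G], Prop}

/-- automorphisms -/
theorem evaut (ρ : Equiv.Perm V) (hρ : ∀ u v, E.R (ρ u) (ρ v) = E.R u v) :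
    ∃ σ : MulAut (EvP E), ∀ v (a : A), σ (ev E v a) = ev E (ρ v) a := by
  obtain ⟨f, hf, -⟩ := evmap E E Set.univ (fun v => ρ v) (fun x y => (hρ x y).symm.subset)
  obtain ⟨g, hg, -⟩ := evmap E E Set.univ (fun v => ρ.symm v) (fun x y => by
    have h1 := hρ (ρ.symm x) (ρ.symm y)
    rw [ρ.apply_symm_apply, ρ.apply_symm_apply] at h1
    exact h1.subset)
  have hf' : ∀ v (a : A), f (ev E v a) = ev E (ρ v) a := fun v a => hf ⟨v, trivial⟩ a
  have hg' : ∀ v (a : A), g (ev E v a) = ev E (ρ.symm v) a := fun v a => hg ⟨v, trivial⟩ a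
  have h1 : g.comp f = MonoidHom.id _ := by
    apply ev_ext
    intro v a
    rw [MonoidHom.comp_apply, hf', hg', ρ.symm_apply_apply, MonoidHom.id_apply]
  have h2 : f.comp g = MonoidHom.id _ := by
    apply ev_ext
    intro v a
    rw [MonoidHom.comp_apply, hg', hf', ρ.apply_symm_apply, MonoidHom.id_apply]
  exact ⟨MonoidHom.toMulEquiv f g h1 h2, hf'⟩

/-- the finite cyclic quotient is in the class -/
theorem quot_mem (hC : ClosedE C) (hcl : ∀ σ : Finset V, Clq E σ → C ↥(evs E (σ : Set V)))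
    {τ : Equiv.Perm V} (hτ : ∀ u v, E.R (τ u) (τ v) = E.R u v) {F : Finset V} {n : ℕ}
    (hn : Good τ F n) : C (EvP (ER E τ F n hn)) := by
  classical
  refine ev_mem _ hC ?_
  intro σ hσ
  obtain ⟨L, hL, hL2⟩ := lift_clq E hn σ hσ
  have hR : ∀ s ∈ σ, ∀ t ∈ σ, (ER E τ F n hn).R s t = E.R (L s) (L t) := by
    intro s hs t ht
    by_cases hst : s = t
    · subst hst
      rw [E.irrefl, (ER E τ F n hn).irrefl]
    · have := ER_eq E hτ hn (hL2 s hs t ht hst)
      rwa [hL, hL] at this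
  obtain ⟨f, hf, -⟩ := evmap (ER E τ F n hn) E (σ : Set (Tq τ n)) (fun s => L s)
    (fun x y => (hR x x.2 y y.2).subset)
  have hmem : ∀ v : ((σ.image L : Finset V) : Set V), tm τ n v ∈ σ ∧ L (tm τ n v) = v := by
    rintro ⟨v, hv⟩
    rw [Finset.mem_coe, Finset.mem_image] at hv
    obtain ⟨s, hs, rfl⟩ := hv
    rw [hL]
    exact ⟨hs, rfl⟩
  obtain ⟨g, hg, -⟩ := evmap E (ER E τ F n hn) ((σ.image L : Finset V) : Set V)
    (fun v => tm τ n v) (fun x y => by
      have := hR _ (hmem x).1 _ (hmem y).1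
      rw [(hmem x).2, (hmem y).2] at this
      exact this.symm.subset)
  have hgf : ∀ x ∈ evs (ER E τ F n hn) (σ : Set (Tq τ n)), g (f x) = x := by
    refine evs_eq (f := g.comp f) (g := MonoidHom.id _) ?_
    intro s hs a
    rw [MonoidHom.comp_apply, MonoidHom.id_apply]
    have h1 := hf ⟨s, hs⟩ a
    have h2 := hg ⟨L s, by
      rw [Finset.mem_coe, Finset.mem_image]
      exact ⟨s, hs, rfl⟩⟩ a
    have h3 : f (ev (ER E τ F n hn) s a) = ev E (L s) a := h1
    have h4 : g (ev E (L s) a) = ev (ER E τ F n hn) (tm τ n (L s)) a := h2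
    rw [h3, h4, hL]
  have hfm : ∀ x ∈ evs (ER E τ F n hn) (σ : Set (Tq τ n)),
      f x ∈ evs E ((σ.image L : Finset V) : Set V) := by
    intro x hx
    have h1 : evs (ER E τ F n hn) (σ : Set (Tq τ n)) ≤
        (evs E ((σ.image L : Finset V) : Set V)).comap f := by
      refine (Subgroup.closure_le _).2 ?_
      rintro _ ⟨s, hs, a, rfl⟩
      have h3 : f (ev (ER E τ F n hn) s a) = ev E (L s) a := hf ⟨s, hs⟩ a
      show f (ev (ER E τ F n hn) s a) ∈ evs E ((σ.image L : Finset V) : Set V)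
      rw [h3]
      exact ev_mem_evs E (by
        rw [Finset.mem_coe, Finset.mem_image]
        exact ⟨s, hs, rfl⟩) a
    exact h1 hx
  have hclq : Clq E (σ.image L) := by
    intro u hu v hv huv
    rw [Finset.mem_image] at hu hv
    obtain ⟨s, hs, rfl⟩ := hu
    obtain ⟨t, ht, rfl⟩ := hv
    rw [← hR s hs t ht, ← hR t ht s hs]
    exact hσ s hs t ht (fun h => huv (by rw [h]))
  refine hC.base.of_injective _ _ ((f.comp (evs (ER E τ F n hn) (σ : Set (Tq τ n))).subtype).codRestrict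
    (evs E ((σ.image L : Finset V) : Set V)) (fun x => hfm x x.2)) ?_ (hcl _ hclq)
  intro x y hxy
  have h1 : f (x : EvP (ER E τ F n hn)) = f y := congrArg Subtype.val hxy
  have h2 := congrArg g h1
  rw [hgf _ x.2, hgf _ y.2] at h2
  exact Subtype.ext h2

/-- **even kernels** -/
theorem even_kernel (hC : ClosedE C) (hD : ClosedOver C D)
    (hcl : ∀ σ : Finset V, Clq E σ → C ↥(evs E (σ : Set V)))
    (G : Type) [Group G] (N : Subgroup G) [N.Normal] (hQ : D (G ⧸ N)) (e : EvP E ≃* N)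
    (h : ∀ (g : G) (F : Finset V), ∃ (τ : Equiv.Perm V) (n : N),
      (∀ u v, E.R (τ u) (τ v) = E.R u v) ∧ ∀ v ∈ F, ∀ a : A,
        ((n : G) * g) * (e (ev E v a) : G) * ((n : G) * g)⁻¹ = e (ev E (τ v) a)) : D G := by
  classical
  refine Q30.FJ.crit_over hC hD G N hQ ?_
  intro g E₀ hE hEN
  refine Or.inr (Or.inl ?_)
  -- supports
  have hsx : ∀ x : G, ∃ S : Finset V, ∀ hx : x ∈ N, e.symm ⟨x, hx⟩ ∈ evs E (S : Set V) := by
    intro x
    by_cases hx : x ∈ N
    · obtain ⟨S, hS⟩ := ev_supp E (e.symm ⟨x, hx⟩)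
      exact ⟨S, fun _ => hS⟩
    · exact ⟨∅, fun h' => absurd h' hx⟩
  choose supp hsupp using hsx
  obtain ⟨S, hS⟩ : ∃ S : Finset V, S = hE.toFinset.biUnion supp := ⟨_, rfl⟩
  have hSx : ∀ x (hx : x ∈ E₀), e.symm ⟨x, hEN hx⟩ ∈ evs E (S : Set V) := by
    intro x hx
    refine evs_mono E ?_ (hsupp x (hEN hx))
    rw [hS]
    exact_mod_cast Finset.subset_biUnion_of_mem supp (hE.mem_toFinset.2 hx)
  obtain ⟨τ, n, hτ, hn⟩ := h g S
  obtain ⟨m, hm⟩ : ∃ m : EvP E, m = e.symm n := ⟨_, rfl⟩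
  obtain ⟨U, hU⟩ := ev_supp E m
  obtain ⟨F, hF⟩ : ∃ F : Finset V, F = S ∪ S.image τ ∪ U := ⟨_, rfl⟩
  have hSF : (S : Set V) ⊆ F := by
    intro v hv
    rw [hF]
    simp only [Finset.coe_union, Set.mem_union]
    exact Or.inl (Or.inl hv)
  have hτF : ∀ v ∈ S, τ v ∈ F := by
    intro v hv
    rw [hF]
    simp only [Finset.mem_union, Finset.mem_image]
    exact Or.inl (Or.inr ⟨v, hv, rfl⟩)
  have hmF : m ∈ evs E (F : Set V) := by
    refine evs_mono E ?_ hU
    intro v hv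
    rw [hF]
    simp only [Finset.coe_union, Set.mem_union]
    exact Or.inr hv
  obtain ⟨k, hk⟩ := exists_good τ F
  have hclF : ∀ u ∈ F, ∀ v ∈ F, cl τ F u v := by
    intro u hu v hv
    exact ⟨0, by simpa using hu, by simpa using hv⟩
  -- the maps
  obtain ⟨J, hJ, -⟩ := evmap E (ER E τ F k hk) (F : Set V) (fun v => tm τ k v)
    (fun x y => (ER_eq E hτ hk (hclF x x.2 y y.2)).symm.subset)
  have hJ' : ∀ v ∈ F, ∀ a, J (ev E v a) = ev (ER E τ F k hk) (tm τ k v) a :=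
    fun v hv a => hJ ⟨v, hv⟩ a
  obtain ⟨B, hB, -⟩ := evmap (ER E τ F k hk) E (tm τ k '' (F : Set V)) (fun s => s.2.choose) (by
    intro x y
    have h1 := ER_eq E hτ hk (hclF _ x.2.choose_spec.1 _ y.2.choose_spec.1)
    rw [x.2.choose_spec.2, y.2.choose_spec.2] at h1
    exact h1.subset)
  have hinj : ∀ u ∈ F, ∀ v ∈ F, tm τ k u = tm τ k v → u = v := by
    intro u hu v hv huv
    obtain ⟨j, hj, hj'⟩ := partner hk (hclF u hu u hu) (hclF u hu v hv) ((tm_eq τ).1 huv)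
    exact hj.symm.trans hj'
  have hBJ : ∀ x ∈ evs E (F : Set V), B (J x) = x := by
    refine evs_eq (f := B.comp J) (g := MonoidHom.id _) ?_
    intro v hv a
    rw [MonoidHom.comp_apply, MonoidHom.id_apply, hJ' v hv]
    have h1 : tm τ k v ∈ tm τ k '' (F : Set V) := ⟨v, hv, rfl⟩
    have h2 := hB ⟨tm τ k v, h1⟩ a
    refine h2.trans ?_
    congr 1
    have h3 := h1.choose_spec
    rw [hinj _ h3.1 _ hv h3.2]
  obtain ⟨ρ, hρ1, hρ2, hρ3⟩ := exists_rot E hτ hk
  obtain ⟨σ₀, hσ₀⟩ := evaut (ER E τ F k hk) ρ hρ2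
  have hσpow : ∀ (j : ℕ) (v : Tq τ k) (a : A), (σ₀ ^ j) (ev (ER E τ F k hk) v a) =
      ev (ER E τ F k hk) ((ρ ^ j) v) a := by
    intro j
    induction j with
    | zero => intro v a; simp
    | succ j ih =>
      intro v a
      rw [pow_succ, MulAut.mul_apply, hσ₀, ih, pow_succ, Equiv.Perm.mul_apply]
  have hσk : σ₀ ^ k = 1 := by
    have h1 : (σ₀ ^ k).toMonoidHom = MonoidHom.id _ := by
      apply ev_ext
      intro v a
      show (σ₀ ^ k) (ev (ER E τ F k hk) v a) = ev (ER E τ F k hk) v a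
      rw [hσpow, hρ3, Equiv.Perm.one_apply]
    ext x
    exact DFunLike.congr_fun h1 x
  have hpow : ∀ j : ℕ, ∃ p : EvP (ER E τ F k hk),
      (MulAut.conj (J m)⁻¹ * σ₀) ^ j = MulAut.conj p * σ₀ ^ j := by
    intro j
    induction j with
    | zero => exact ⟨1, by simp⟩
    | succ j ih =>
      obtain ⟨p, hp⟩ := ih
      refine ⟨p * (σ₀ ^ j) (J m)⁻¹, ?_⟩
      rw [pow_succ, hp, pow_succ]
      ext y
      simp [MulAut.mul_apply, MulAut.conj_apply, mul_assoc]
  obtain ⟨p, hp⟩ := hpow k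
  rw [hσk, mul_one] at hp
  -- conjugation by `g` on the generators
  have hne : (e m : G) = n := by rw [hm, MulEquiv.apply_symm_apply]
  have hconj : ∀ v ∈ S, ∀ a : A, g * (e (ev E v a) : G) * g⁻¹ = e (m⁻¹ * ev E (τ v) a * m) := by
    intro v hv a
    have h1 := hn v hv a
    rw [map_mul, map_mul, map_inv, Subgroup.coe_mul, Subgroup.coe_mul, Subgroup.coe_inv, ← h1, hne]
    group
  let cg : N →* N := (MulAut.conjNormal g).toMonoidHom
  have hcg : ∀ x : N, (cg x : G) = g * x * g⁻¹ := fun x => MulAut.conjNormal_apply g x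
  let ψ : EvP E →* EvP E := (e.symm.toMonoidHom.comp cg).comp e.toMonoidHom
  have hψ : ∀ x, ψ x = e.symm (cg (e x)) := fun _ => rfl
  have hψv : ∀ v ∈ S, ∀ a : A, ψ (ev E v a) = m⁻¹ * ev E (τ v) a * m := by
    intro v hv a
    rw [hψ, MulEquiv.symm_apply_eq]
    apply Subtype.ext
    rw [hcg]
    exact hconj v hv a
  have hψF : ∀ x ∈ evs E (S : Set V), ψ x ∈ evs E (F : Set V) := by
    intro x hx
    have h1 : evs E (S : Set V) ≤ (evs E (F : Set V)).comap ψ := by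
      refine (Subgroup.closure_le _).2 ?_
      rintro _ ⟨v, hv, a, rfl⟩
      show ψ (ev E v a) ∈ evs E (F : Set V)
      rw [hψv v hv]
      exact Subgroup.mul_mem _ (Subgroup.mul_mem _ (Subgroup.inv_mem _ hmF)
        (ev_mem_evs E (hτF v hv) a)) hmF
    exact h1 hx
  have heq : ∀ x ∈ evs E (S : Set V), J (ψ x) = (MulAut.conj (J m)⁻¹ * σ₀) (J x) := by
    refine evs_eq (f := J.comp ψ)
      (g := (MulAut.conj (J m)⁻¹ * σ₀).toMonoidHom.comp J) ?_
    intro v hv a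
    show J (ψ (ev E v a)) = (MulAut.conj (J m)⁻¹ * σ₀) (J (ev E v a))
    rw [hψv v hv, map_mul, map_mul, map_inv, hJ' _ (hτF v hv), hJ' _ (hSF hv), MulAut.mul_apply,
      MulAut.conj_apply, hσ₀, hρ1, inv_inv]
  have hle : Subgroup.closure (E₀ ∪ (fun x => g * x * g⁻¹) '' E₀) ≤ N := by
    rw [Subgroup.closure_le]
    rintro x (hx | ⟨y, hy, rfl⟩)
    · exact hEN hx
    · exact Subgroup.Normal.conj_mem inferInstance y (hEN hy) g
  have hlF : ∀ x (hx : x ∈ Subgroup.closure (E₀ ∪ (fun x => g * x * g⁻¹) '' E₀)),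
      e.symm ⟨x, hle hx⟩ ∈ evs E (F : Set V) := by
    have h1 : Subgroup.closure (E₀ ∪ (fun x => g * x * g⁻¹) '' E₀) ≤
        ((evs E (F : Set V)).map e.toMonoidHom).map N.subtype := by
      rw [Subgroup.closure_le]
      rintro x (hx | ⟨y, hy, rfl⟩)
      · exact ⟨⟨x, hEN hx⟩, ⟨e.symm ⟨x, hEN hx⟩, evs_mono E hSF (hSx x hx),
          e.apply_symm_apply _⟩, rfl⟩
      · refine ⟨e (ψ (e.symm ⟨y, hEN hy⟩)), ⟨_, hψF _ (hSx y hy), rfl⟩, ?_⟩
        rw [hψ, e.apply_symm_apply, e.apply_symm_apply]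
        exact hcg _
    intro x hx
    obtain ⟨z, ⟨w, hw, rfl⟩, hz⟩ := h1 hx
    have h2 : e.symm ⟨x, hle hx⟩ = w := by
      rw [MulEquiv.symm_apply_eq]
      exact Subtype.ext hz.symm
    rw [h2]
    exact hw
  refine ⟨EvP (ER E τ F k hk), inferInstance,
    (J.comp e.symm.toMonoidHom).comp (Subgroup.inclusion hle),
    MulAut.conj (J m)⁻¹ * σ₀, k, p, quot_mem E hC hcl hτ hk, ?_, hk.pos, hp, ?_⟩
  · intro x y hxy
    have h1 : J (e.symm ⟨x, hle x.2⟩) = J (e.symm ⟨y, hle y.2⟩) := hxy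
    have h2 := congrArg B h1
    rw [hBJ _ (hlF _ x.2), hBJ _ (hlF _ y.2)] at h2
    have h3 := e.symm.injective h2
    exact Subtype.ext (congrArg (fun z : N => (z : G)) h3)
  · intro x y hx hy
    have h1 : (e.symm ⟨y, hle y.2⟩ : EvP E) = ψ (e.symm ⟨x, hle x.2⟩) := by
      rw [hψ, e.apply_symm_apply]
      congr 1
      apply Subtype.ext
      rw [hcg]
      exact hy
    show J (e.symm ⟨y, hle y.2⟩) = (MulAut.conj (J m)⁻¹ * σ₀) (J (e.symm ⟨x, hle x.2⟩))
    rw [h1]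
    exact heq _ (hSx _ hx)

/-- even Artin relations: `(a b) ^ m = (b a) ^ m`, `m = m u v`; no relation if `m u v = 0` -/
def artinRel (m : V → V → ℕ) : EvenRel V (Multiplicative ℤ) where
  R u v := {r | u ≠ v ∧ 0 < m u v ∧
    r = (Monoid.Coprod.inl (Multiplicative.ofAdd (1 : ℤ)) *
        Monoid.Coprod.inr (Multiplicative.ofAdd (1 : ℤ))) ^ m u v *
      ((Monoid.Coprod.inr (Multiplicative.ofAdd (1 : ℤ)) *
        Monoid.Coprod.inl (Multiplicative.ofAdd (1 : ℤ))) ^ m u v)⁻¹}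
  irrefl v := by
    ext r
    simp
  fst u v r hr := by
    obtain ⟨-, -, rfl⟩ := hr
    simp
  snd u v r hr := by
    obtain ⟨-, -, rfl⟩ := hr
    simp

end Q9.FJP
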