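import Pool.Agent.Q9.FJP.Ker

/-!
# Even Artin groups
-/

set_option autoImplicit false

namespace Q9.FJP

open Pool.Agent.Y110.FJ (ClosedE)
open Q30.FJ (ClosedOver)

variable {V : Type}

/-- the relations `(u v) ^ m = (v u) ^ m`, where `m = m u v` is positive -/
def artinWords (m : V → V → ℕ) : Set (FreeGroup V) :=
  {r | ∃ u v, 0 < m u v ∧ r = (FreeGroup.of u * FreeGroup.of v) ^ m u v *
    ((FreeGroup.of v * FreeGroup.of u) ^ m u v)⁻¹}

/-- the even Artin group: generators `v ∈ V` and relations `(u v) ^ m = (v u) ^ m`, `m = m u v > 0`;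
the number `2 m` is the usual label of the pair `u, v`, and `m u v = 0` means that there is no
relation -/
abbrev EvenArtin (m : V → V → ℕ) : Type := PresentedGroup (artinWords m)

theorem lift_word {H : Type} [Group H] (m : V → V → ℕ) (φ : V → Multiplicative ℤ →* H) (u v : V) :
    Monoid.Coprod.lift (φ u) (φ v) ((Monoid.Coprod.inl (Multiplicative.ofAdd (1 : ℤ)) *
        Monoid.Coprod.inr (Multiplicative.ofAdd (1 : ℤ))) ^ m u v *
      ((Monoid.Coprod.inr (Multiplicative.ofAdd (1 : ℤ)) *
        Monoid.Coprod.inl (Multiplicative.ofAdd (1 : ℤ))) ^ m u v)⁻¹) =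
    (φ u (Multiplicative.ofAdd 1) * φ v (Multiplicative.ofAdd 1)) ^ m u v *
      ((φ v (Multiplicative.ofAdd 1) * φ u (Multiplicative.ofAdd 1)) ^ m u v)⁻¹ := by
  simp

/-- the even Artin group is a product along even relations -/
theorem artin_iso (m : V → V → ℕ) : ∃ e : EvP (artinRel m) ≃* EvenArtin m,
    ∀ v, e (ev (artinRel m) v (Multiplicative.ofAdd 1)) = PresentedGroup.of v := by
  let φ : V → Multiplicative ℤ →* EvenArtin m := fun v => zpowersHom _ (PresentedGroup.of v)
  have hφ1 : ∀ v, φ v (Multiplicative.ofAdd 1) = PresentedGroup.of v := by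
    intro v
    simp [φ]
  let f : EvP (artinRel m) →* EvenArtin m := evlift (artinRel m) φ (by
    rintro u v r ⟨-, huv, rfl⟩
    rw [lift_word, hφ1, hφ1]
    have h1 : (QuotientGroup.mk' (Subgroup.normalClosure (artinWords m)))
        ((FreeGroup.of u * FreeGroup.of v) ^ m u v *
          ((FreeGroup.of v * FreeGroup.of u) ^ m u v)⁻¹) = 1 :=
      (QuotientGroup.eq_one_iff _).2 (Subgroup.subset_normalClosure ⟨u, v, huv, rfl⟩)
    exact h1)
  have hf : ∀ v, f (ev (artinRel m) v (Multiplicative.ofAdd 1)) = PresentedGroup.of v := by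
    intro v
    rw [evlift_ev, hφ1]
  let g : EvenArtin m →* EvP (artinRel m) :=
    PresentedGroup.toGroup (f := fun v => ev (artinRel m) v (Multiplicative.ofAdd 1)) (by
      rintro _ ⟨u, v, huv, rfl⟩
      by_cases h : u = v
      · subst h
        simp
      · have h1 := ev_rel (artinRel m) u v _ ⟨h, huv, rfl⟩
        rw [lift_word] at h1
        simpa using h1)
  have hg : ∀ v, g (PresentedGroup.of v) = ev (artinRel m) v (Multiplicative.ofAdd 1) :=
    fun v => PresentedGroup.toGroup.of _
  have h1 : g.comp f = MonoidHom.id _ := by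
    apply ev_ext
    intro v a
    have h2 : (g.comp f).comp (ev (artinRel m) v) =
        (MonoidHom.id (EvP (artinRel m))).comp (ev (artinRel m) v) := by
      apply MonoidHom.ext_mint
      show g (f (ev (artinRel m) v (Multiplicative.ofAdd 1))) = _
      rw [hf, hg]
      rfl
    exact DFunLike.congr_fun h2 a
  have h2 : f.comp g = MonoidHom.id _ := by
    apply PresentedGroup.ext
    intro v
    show f (g (PresentedGroup.of v)) = _
    rw [hg, hf]
    rfl
  exact ⟨MonoidHom.toMulEquiv f g h1 h2, hf⟩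

variable {C D : ∀ (G : Type) [Group G], Prop}

/-- the subgroup generated by a set of vertices -/
def artinSub (m : V → V → ℕ) (S : Set V) : Subgroup (EvenArtin m) :=
  Subgroup.closure (PresentedGroup.of '' S)

/-- the subgroups of cliques -/
theorem artin_clq (hC : ClosedE C) (m : V → V → ℕ)
    (hcl : ∀ σ : Finset V, (∀ u ∈ σ, ∀ v ∈ σ, u ≠ v → 0 < m u v ∨ 0 < m v u) →
      C ↥(artinSub m (σ : Set V))) (σ : Finset V) (hσ : Clq (artinRel m) σ) :
    C ↥(evs (artinRel m) (σ : Set V)) := by
  obtain ⟨i, hi⟩ := artin_iso m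
  have himap : ∀ S : Set V, (evs (artinRel m) S).map i.toMonoidHom = artinSub m S := by
    intro S
    apply le_antisymm
    · rw [evs, MonoidHom.map_closure, Subgroup.closure_le]
      rintro _ ⟨_, ⟨v, hv, a, rfl⟩, rfl⟩
      have h2 : ∀ a : Multiplicative ℤ, i (ev (artinRel m) v a) =
          PresentedGroup.of v ^ (Multiplicative.toAdd a) := by
        intro a
        have h3 : i.toMonoidHom.comp (ev (artinRel m) v) =
            zpowersHom _ (PresentedGroup.of v : EvenArtin m) := by
          apply MonoidHom.ext_mint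
          show i (ev (artinRel m) v (Multiplicative.ofAdd 1)) = _
          rw [hi]
          simp
        exact DFunLike.congr_fun h3 a
      show i (ev (artinRel m) v a) ∈ _
      rw [h2]
      exact (artinSub m S).zpow_mem (Subgroup.subset_closure (Set.mem_image_of_mem _ hv)) _
    · rw [artinSub, Subgroup.closure_le]
      rintro _ ⟨v, hv, rfl⟩
      exact ⟨_, ev_mem_evs _ hv _, hi v⟩
  have h1 : C ↥(artinSub m (σ : Set V)) := by
    refine hcl σ fun u hu v hv huv => ?_
    rcases hσ u hu v hv huv with ⟨r, hr⟩ | ⟨r, hr⟩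
    · exact Or.inl hr.2.1
    · exact Or.inr hr.2.1
  refine hC.base.of_injective _ _ ((i.toMonoidHom.comp
    (evs (artinRel m) (σ : Set V)).subtype).codRestrict (artinSub m (σ : Set V)) (fun x => ?_))
    ?_ h1
  · rw [← himap]
    exact ⟨x, x.2, rfl⟩
  · intro x y hxy
    have h2 : i (x : EvP (artinRel m)) = i y := congrArg Subtype.val hxy
    exact Subtype.ext (i.injective h2)

/-- membership -/
theorem artin_mem (hC : ClosedE C) (m : V → V → ℕ)
    (hcl : ∀ σ : Finset V, (∀ u ∈ σ, ∀ v ∈ σ, u ≠ v → 0 < m u v ∨ 0 < m v u) →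
      C ↥(artinSub m (σ : Set V))) : C (EvenArtin m) := by
  obtain ⟨i, -⟩ := artin_iso m
  exact hC.base.of_injective _ _ i.symm.toMonoidHom i.symm.injective
    (ev_mem _ hC (artin_clq hC m hcl))

/-- the kernel theorem for even Artin groups -/
theorem artin_kernel (hC : ClosedE C) (hD : ClosedOver C D) (m : V → V → ℕ)
    (hcl : ∀ σ : Finset V, (∀ u ∈ σ, ∀ v ∈ σ, u ≠ v → 0 < m u v ∨ 0 < m v u) →
      C ↥(artinSub m (σ : Set V)))
    (G : Type) [Group G] (N : Subgroup G) [N.Normal] (hQ : D (G ⧸ N)) (e : EvenArtin m ≃* N)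
    (h : ∀ (g : G) (F : Finset V), ∃ (τ : Equiv.Perm V) (n : N),
      (∀ u v, m (τ u) (τ v) = m u v) ∧ ∀ v ∈ F,
        ((n : G) * g) * (e (PresentedGroup.of v) : G) * ((n : G) * g)⁻¹ =
          e (PresentedGroup.of (τ v))) : D G := by
  obtain ⟨i, hi⟩ := artin_iso m
  refine even_kernel (artinRel m) hC hD (artin_clq hC m hcl) G N hQ (i.trans e) ?_
  · intro g F
    obtain ⟨τ, n, hτ, hn⟩ := h g F
    refine ⟨τ, n, ?_, ?_⟩
    · intro u v
      ext r
      simp only [artinRel, Set.mem_ofPred_eq, hτ, ne_eq, EmbeddingLike.apply_eq_iff_eq]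
    · intro v hv a
      have h3 : (N.subtype.comp ((MulAut.conjNormal ((n : G) * g)).toMonoidHom.comp
          ((i.trans e).toMonoidHom.comp (ev (artinRel m) v)))) =
          N.subtype.comp ((i.trans e).toMonoidHom.comp (ev (artinRel m) (τ v))) := by
        apply MonoidHom.ext_mint
        show ((MulAut.conjNormal ((n : G) * g) (e (i (ev (artinRel m) v
          (Multiplicative.ofAdd 1)))) : N) : G) =
            (e (i (ev (artinRel m) (τ v) (Multiplicative.ofAdd 1))) : G)
        rw [hi, hi, MulAut.conjNormal_apply]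
        exact hn v hv
      have h4 := DFunLike.congr_fun h3 a
      have h5 : ((MulAut.conjNormal ((n : G) * g) (e (i (ev (artinRel m) v a))) : N) : G) =
            (e (i (ev (artinRel m) (τ v) a)) : G) := h4
      rw [MulAut.conjNormal_apply] at h5
      exact h5

end Q9.FJP
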