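import Pool.Agent.Q9.FJP.Even

/-!
# Finite cyclic quotients of relation systems
-/

set_option autoImplicit false

namespace Q9.FJP

variable {V A : Type} [Group A]

section perm

variable (τ : Equiv.Perm V)

/-- the point is periodic -/
def per (u : V) : Prop := ∃ j : ℕ, 0 < j ∧ (τ ^ j) u = u

/-- two points are moved into the finite set by the same power -/
def cl (F : Finset V) (u v : V) : Prop := ∃ i : ℤ, (τ ^ i) u ∈ F ∧ (τ ^ i) v ∈ F

/-- the congruence modulo the `n`-th power -/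
def eqv (n : ℕ) (u v : V) : Prop := ∃ m : ℤ, (τ ^ ((n : ℤ) * m)) u = v

/-- a suitable exponent -/
structure Good (F : Finset V) (n : ℕ) : Prop where
  pos : 0 < n
  fix : ∀ u ∈ F, per τ u → (τ ^ n) u = u
  ret : ∀ u ∈ F, ¬ per τ u → ∀ k : ℤ, (τ ^ k) u ∈ F → 3 * |k| < n

theorem zadd (a b : ℤ) (u : V) : (τ ^ (a + b)) u = (τ ^ a) ((τ ^ b) u) := by
  rw [zpow_add, Equiv.Perm.mul_apply]

theorem zneg (a : ℤ) {u v : V} (h : (τ ^ a) u = v) : (τ ^ (-a)) v = u := by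
  rw [← h, ← zadd, neg_add_cancel, zpow_zero, Equiv.Perm.one_apply]

theorem fixmul {n : ℕ} {u : V} (h : (τ ^ n) u = u) (m : ℤ) : (τ ^ ((n : ℤ) * m)) u = u := by
  rw [zpow_mul, zpow_natCast]
  exact Equiv.Perm.zpow_apply_eq_self_of_apply_eq_self h m

theorem per_zpow {u : V} (i : ℤ) (h : per τ u) : per τ ((τ ^ i) u) := by
  obtain ⟨j, hj, h⟩ := h
  refine ⟨j, hj, ?_⟩
  rw [← zpow_natCast, ← zadd, add_comm, zadd, zpow_natCast, h]

theorem per_of_zpow {u : V} (i : ℤ) (h : per τ ((τ ^ i) u)) : per τ u := by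
  have := per_zpow τ (-i) h
  rwa [zneg τ i rfl] at this

theorem ret_unique {u : V} (h : ¬ per τ u) {a b : ℤ} (hab : (τ ^ a) u = (τ ^ b) u) : a = b := by
  have key : ∀ c d : ℤ, c < d → (τ ^ c) u = (τ ^ d) u → False := by
    intro c d hcd he
    apply h
    obtain ⟨k, hk⟩ := Int.eq_ofNat_of_zero_le (sub_nonneg.2 hcd.le)
    refine ⟨k, by omega, ?_⟩
    rw [← zpow_natCast, ← hk, sub_eq_neg_add, zadd, ← he, ← zadd, neg_add_cancel, zpow_zero,
      Equiv.Perm.one_apply]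
  rcases lt_trichotomy a b with h1 | h1 | h1
  · exact (key a b h1 hab).elim
  · exact h1
  · exact (key b a h1 hab.symm).elim

theorem exists_good (F : Finset V) : ∃ n, Good τ F n := by
  classical
  have hper : ∀ u : V, ∃ j : ℕ, 0 < j ∧ (per τ u → (τ ^ j) u = u) := by
    intro u
    by_cases h : per τ u
    · obtain ⟨j, hj, h⟩ := h
      exact ⟨j, hj, fun _ => h⟩
    · exact ⟨1, one_pos, fun h' => absurd h' h⟩
  choose p hp0 hp using hper
  have hfin : (⋃ u ∈ F, ⋃ w ∈ F, {k : ℤ | ¬ per τ u ∧ (τ ^ k) u = w}).Finite := by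
    refine F.finite_toSet.biUnion fun u _ => F.finite_toSet.biUnion fun w _ => ?_
    refine Set.Subsingleton.finite ?_
    intro a ha b hb
    exact ret_unique τ ha.1 (ha.2.trans hb.2.symm)
  obtain ⟨B, hB⟩ := (hfin.image fun k : ℤ => k.natAbs).bddAbove
  refine ⟨(∏ u ∈ F, p u) * (3 * B + 1), ?_, ?_, ?_⟩
  · exact Nat.mul_pos (Finset.prod_pos fun u _ => hp0 u) (by omega)
  · intro u hu h
    obtain ⟨c, hc⟩ := Finset.dvd_prod_of_mem p hu
    rw [hc, mul_assoc, pow_mul]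
    have h1 := hp u h
    have h2 := Equiv.Perm.pow_apply_eq_self_of_apply_eq_self (f := τ ^ p u) h1
      (c * (3 * B + 1))
    exact h2
  · intro u hu h k hk
    have h1 : k.natAbs ≤ B := hB ⟨k, by
      refine Set.mem_biUnion hu (Set.mem_biUnion hk ?_)
      exact ⟨h, rfl⟩, rfl⟩
    have h2 : 1 ≤ ∏ u ∈ F, p u := Finset.prod_pos fun u _ => hp0 u
    have h3 : 3 * B + 1 ≤ (∏ u ∈ F, p u) * (3 * B + 1) := Nat.le_mul_of_pos_left _ h2
    have h5 : |k| ≤ B := by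
      rw [Int.abs_eq_natAbs]
      exact_mod_cast h1
    refine lt_of_lt_of_le ?_ (Int.ofNat_le.2 h3)
    push_cast
    linarith

variable {τ}

theorem cl_symm {F : Finset V} {u v : V} (h : cl τ F u v) : cl τ F v u := by
  obtain ⟨i, h1, h2⟩ := h
  exact ⟨i, h2, h1⟩

theorem cl_zpow {F : Finset V} {u v : V} (k : ℤ) (h : cl τ F u v) :
    cl τ F ((τ ^ k) u) ((τ ^ k) v) := by
  obtain ⟨i, h1, h2⟩ := h
  refine ⟨i - k, ?_, ?_⟩
  · rwa [← zadd, sub_add_cancel]
  · rwa [← zadd, sub_add_cancel]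

theorem small_zero {n : ℕ} {m : ℤ} (h : |(n : ℤ) * m| < n) : m = 0 := by
  by_contra hm
  have h1 : 1 ≤ |m| := Int.one_le_abs hm
  rw [abs_mul, Nat.abs_cast] at h
  have h2 : (n : ℤ) * 1 ≤ (n : ℤ) * |m| := mul_le_mul_of_nonneg_left h1 (by positivity)
  omega

/-- a periodic point of the closure of `F` is fixed by the `n`-th power -/
theorem fix_of {F : Finset V} {n : ℕ} (hn : Good τ F n) {u : V} (i : ℤ) (hu : (τ ^ i) u ∈ F)
    (hp : per τ u) : (τ ^ n) u = u := by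
  have h1 := hn.fix _ hu (per_zpow τ i hp)
  apply (τ ^ i).injective
  rw [← zpow_natCast, ← zadd, add_comm, zadd, zpow_natCast]
  exact h1

/-- **uniqueness of partners** -/
theorem partner {F : Finset V} {n : ℕ} (hn : Good τ F n) {u v w : V} (h1 : cl τ F u v)
    (h2 : cl τ F u w) (h3 : eqv τ n v w) : ∃ j : ℤ, (τ ^ j) u = u ∧ (τ ^ j) v = w := by
  obtain ⟨i, hi, hi'⟩ := h1
  obtain ⟨k, hk, hk'⟩ := h2
  obtain ⟨m, hm⟩ := h3
  by_cases hu : per τ u
  · exact ⟨(n : ℤ) * m, fixmul τ (fix_of hn i hi hu) m, hm⟩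
  · by_cases hv : per τ v
    · refine ⟨0, by simp, ?_⟩
      rw [fixmul τ (fix_of hn i hi' hv) m] at hm
      simpa using hm
    · have hu' : ¬ per τ ((τ ^ i) u) := fun h => hu (per_of_zpow τ i h)
      have hv' : ¬ per τ ((τ ^ i) v) := fun h => hv (per_of_zpow τ i h)
      have e1 := hn.ret _ hi hu' (k - i) (by rwa [← zadd, sub_add_cancel])
      have e2 := hn.ret _ hi' hv' (k + (n : ℤ) * m - i) (by
        rw [← zadd, sub_add_cancel, zadd, hm]
        exact hk')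
      have e3 : |(n : ℤ) * m| ≤ |k + (n : ℤ) * m - i| + |k - i| := by
        have := abs_sub (k + (n : ℤ) * m - i) (k - i)
        have h5 : k + (n : ℤ) * m - i - (k - i) = (n : ℤ) * m := by ring
        rwa [h5] at this
      have e4 : m = 0 := small_zero (n := n) (by
        have := hn.pos
        omega)
      subst e4
      refine ⟨0, by simp, ?_⟩
      simpa using hm

/-- **triangles** -/
theorem triangle {F : Finset V} {n : ℕ} (hn : Good τ F n) {x u v w : V} (hx : ¬ per τ x)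
    (h1 : cl τ F x u) (h2 : cl τ F x v) (h3 : cl τ F u w) (h4 : eqv τ n v w) :
    ∃ j : ℤ, (τ ^ j) u = u ∧ (τ ^ j) v = w := by
  obtain ⟨a, ha, ha'⟩ := h1
  obtain ⟨b, hb, hb'⟩ := h2
  obtain ⟨c, hc, hc'⟩ := h3
  obtain ⟨m, hm⟩ := h4
  by_cases hu : per τ u
  · exact ⟨(n : ℤ) * m, fixmul τ (fix_of hn c hc hu) m, hm⟩
  · by_cases hv : per τ v
    · refine ⟨0, by simp, ?_⟩
      rw [fixmul τ (fix_of hn b hb' hv) m] at hm
      simpa using hm
    · have hx' : ¬ per τ ((τ ^ a) x) := fun h => hx (per_of_zpow τ a h)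
      have hu' : ¬ per τ ((τ ^ a) u) := fun h => hu (per_of_zpow τ a h)
      have hv' : ¬ per τ ((τ ^ b) v) := fun h => hv (per_of_zpow τ b h)
      have e1 := hn.ret _ ha hx' (b - a) (by rwa [← zadd, sub_add_cancel])
      have e2 := hn.ret _ ha' hu' (c - a) (by rwa [← zadd, sub_add_cancel])
      have e3 := hn.ret _ hb' hv' (c + (n : ℤ) * m - b) (by
        rw [← zadd, sub_add_cancel, zadd, hm]
        exact hc')
      have e4 : |(n : ℤ) * m| ≤ |c + (n : ℤ) * m - b| + |b - a| + |c - a| := by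
        have h5 := abs_sub (c + (n : ℤ) * m - b) (c - a)
        have h6 := abs_add_le (c + (n : ℤ) * m - b - (c - a)) (b - a)
        have h7 : c + (n : ℤ) * m - b - (c - a) + (b - a) = (n : ℤ) * m := by ring
        rw [h7] at h6
        linarith
      have e5 : m = 0 := small_zero (n := n) (by omega)
      subst e5
      refine ⟨0, by simp, ?_⟩
      simpa using hm

theorem cl_trans_zpow {F : Finset V} {u v w : V} {j : ℤ} (h1 : (τ ^ j) u = u) (h2 : (τ ^ j) v = w)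
    (h : cl τ F u v) : cl τ F u w := by
  have := cl_zpow j h
  rwa [h1, h2] at this

end perm

variable (E : EvenRel V A) (τ : Equiv.Perm V)

theorem R_zpow (hτ : ∀ u v, E.R (τ u) (τ v) = E.R u v) (j : ℤ) (u v : V) :
    E.R ((τ ^ j) u) ((τ ^ j) v) = E.R u v := by
  have h1 : ∀ (k : ℕ) (u v : V), E.R ((τ ^ k) u) ((τ ^ k) v) = E.R u v := by
    intro k
    induction k with
    | zero => intro u v; simp
    | succ k ih =>
      intro u v
      rw [pow_succ, Equiv.Perm.mul_apply, Equiv.Perm.mul_apply, ih, hτ]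
  obtain ⟨k, rfl | rfl⟩ := j.eq_nat_or_neg
  · rw [zpow_natCast]
    exact h1 k u v
  · have h2 := h1 k ((τ ^ (-(k : ℤ))) u) ((τ ^ (-(k : ℤ))) v)
    rw [← h2, ← zpow_natCast, ← zadd, ← zadd, add_neg_cancel, zpow_zero, Equiv.Perm.one_apply,
      Equiv.Perm.one_apply]

/-- the setoid -/
def cset (n : ℕ) : Setoid V where
  r := eqv τ n
  iseqv :=
    { refl := fun u => ⟨0, by simp⟩
      symm := by
        rintro u v ⟨m, hm⟩
        refine ⟨-m, ?_⟩
        rw [mul_neg]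
        exact zneg τ _ hm
      trans := by
        rintro u v w ⟨m, hm⟩ ⟨k, hk⟩
        refine ⟨k + m, ?_⟩
        rw [mul_add, zadd, hm, hk] }

/-- the quotient -/
def Tq (n : ℕ) : Type := Quotient (cset τ n)

/-- the class -/
def tm (n : ℕ) (u : V) : Tq τ n := Quotient.mk (cset τ n) u

theorem tm_eq {n : ℕ} {u v : V} : tm τ n u = tm τ n v ↔ eqv τ n u v :=
  ⟨fun h => Quotient.exact h, fun h => Quotient.sound h⟩

theorem tm_surj {n : ℕ} (s : Tq τ n) : ∃ u, tm τ n u = s := Quotient.exists_rep s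

variable {τ} in
/-- move a partner -/
theorem move {F : Finset V} {n : ℕ} {u a b : V} (h : tm τ n u = tm τ n a) (hab : cl τ F a b) :
    ∃ (k : ℤ), (τ ^ k) a = u ∧ cl τ F u ((τ ^ k) b) ∧ tm τ n ((τ ^ k) b) = tm τ n b := by
  obtain ⟨m, hm⟩ := (tm_eq τ).1 h.symm
  refine ⟨(n : ℤ) * m, hm, ?_, ?_⟩
  · have := cl_zpow ((n : ℤ) * m) hab
    rwa [hm] at this
  · exact ((tm_eq τ).2 ⟨m, rfl⟩).symm

/-- the relations in the quotient -/
def ER (F : Finset V) (n : ℕ) (hn : Good τ F n) :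
    EvenRel (Tq τ n) A where
  R s t := {r | ∃ u v, tm τ n u = s ∧ tm τ n v = t ∧ cl τ F u v ∧ r ∈ E.R u v}
  irrefl s := by
    ext r
    simp only [Set.mem_ofPred_eq, Set.mem_empty_iff_false, iff_false]
    rintro ⟨u, v, hu, hv, hcl, hr⟩
    have h1 : cl τ F u u := by
      obtain ⟨i, hi, -⟩ := hcl
      exact ⟨i, hi, hi⟩
    obtain ⟨j, hj, hj'⟩ := partner hn h1 hcl ((tm_eq τ).1 (hu.trans hv.symm))
    rw [hj] at hj'
    subst hj'
    rw [E.irrefl] at hr
    exact hr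
  fst s t r := by
    rintro ⟨u, v, -, -, -, hr⟩
    exact E.fst u v r hr
  snd s t r := by
    rintro ⟨u, v, -, -, -, hr⟩
    exact E.snd u v r hr

variable {τ}

theorem ER_eq (hτ : ∀ u v, E.R (τ u) (τ v) = E.R u v) {F : Finset V} {n : ℕ} (hn : Good τ F n)
    {u v : V} (h : cl τ F u v) : (ER E τ F n hn).R (tm τ n u) (tm τ n v) = E.R u v := by
  ext r
  constructor
  · rintro ⟨a, b, ha, hb, hab, hr⟩
    obtain ⟨k, hk1, hk2, hk3⟩ := move ha.symm hab
    obtain ⟨j, hj1, hj2⟩ := partner hn h hk2 ((tm_eq τ).1 (hk3.trans hb).symm)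
    rw [← R_zpow E τ hτ k, hk1, ← hj2, ← hj1] at hr
    rw [hj1, ← hj1, R_zpow E τ hτ j] at hr
    exact hr
  · intro hr
    exact ⟨u, v, rfl, rfl, h, hr⟩

/-- **lifting cliques** -/
theorem lift_clq {F : Finset V} {n : ℕ}
    (hn : Good τ F n) (σ : Finset (Tq τ n)) (hσ : Clq (ER E τ F n hn) σ) :
    ∃ L : Tq τ n → V, (∀ s, tm τ n (L s) = s) ∧
      ∀ s ∈ σ, ∀ t ∈ σ, s ≠ t → cl τ F (L s) (L t) := by
  classical
  -- partners
  have hpart : ∀ s ∈ σ, ∀ t ∈ σ, s ≠ t → ∃ a b, tm τ n a = s ∧ tm τ n b = t ∧ cl τ F a b := by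
    intro s hs t ht hst
    rcases hσ s hs t ht hst with ⟨r, a, b, ha, hb, hab, -⟩ | ⟨r, a, b, ha, hb, hab, -⟩
    · exact ⟨a, b, ha, hb, hab⟩
    · exact ⟨b, a, hb, ha, cl_symm hab⟩
  by_cases hx : ∃ x, tm τ n x ∈ σ ∧ ¬ per τ x
  · obtain ⟨x, hx, hxp⟩ := hx
    have hex : ∀ s : Tq τ n, ∃ u, tm τ n u = s ∧ (s = tm τ n x → u = x) ∧
        (s ∈ σ → s ≠ tm τ n x → cl τ F x u) := by
      intro s
      by_cases hs : s = tm τ n x
      · exact ⟨x, hs.symm, fun _ => rfl, fun _ h => absurd hs h⟩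
      · by_cases hs' : s ∈ σ
        · obtain ⟨a, b, ha, hb, hab⟩ := hpart _ hx s hs' (Ne.symm hs)
          obtain ⟨k, -, hk2, hk3⟩ := move (u := x) ha.symm hab
          exact ⟨_, hk3.trans hb, fun h => absurd h hs, fun _ _ => hk2⟩
        · obtain ⟨u, hu⟩ := tm_surj τ s
          exact ⟨u, hu, fun h => absurd h hs, fun h => absurd h hs'⟩
    choose L hL1 hL2 hL3 using hex
    refine ⟨L, hL1, ?_⟩
    intro s hs t ht hst
    by_cases h1 : s = tm τ n x
    · rw [hL2 s h1]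
      exact hL3 t ht (fun h => hst (h1.trans h.symm))
    · by_cases h2 : t = tm τ n x
      · rw [hL2 t h2]
        exact cl_symm (hL3 s hs h1)
      · obtain ⟨a, b, ha, hb, hab⟩ := hpart s hs t ht hst
        obtain ⟨k, -, hk2, hk3⟩ := move (u := L s) ((hL1 s).trans ha.symm) hab
        have h4 : eqv τ n (L t) ((τ ^ k) b) :=
          (tm_eq τ).1 ((hL1 t).trans (hk3.trans hb).symm)
        obtain ⟨j, hj1, hj2⟩ := triangle hn hxp (hL3 s hs h1) (hL3 t ht h2) hk2 h4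
        exact cl_trans_zpow (j := -j) (zneg τ j hj1) (zneg τ j hj2) hk2
  · push Not at hx
    choose L hL using tm_surj τ (n := n)
    refine ⟨L, hL, ?_⟩
    intro s hs t ht hst
    obtain ⟨a, b, ha, hb, hab⟩ := hpart s hs t ht hst
    obtain ⟨i, hi, hi'⟩ := hab
    have h1 : per τ a := hx a (by rwa [ha])
    have h2 : per τ b := hx b (by rwa [hb])
    have h3 : L s = a := by
      obtain ⟨m, hm⟩ := (tm_eq τ).1 (ha.trans (hL s).symm)
      rw [← hm, fixmul τ (fix_of hn i hi h1) m]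
    have h4 : L t = b := by
      obtain ⟨m, hm⟩ := (tm_eq τ).1 (hb.trans (hL t).symm)
      rw [← hm, fixmul τ (fix_of hn i hi' h2) m]
    rw [h3, h4]
    exact ⟨i, hi, hi'⟩

/-- the rotation -/
theorem exists_rot (hτ : ∀ u v, E.R (τ u) (τ v) = E.R u v) {F : Finset V} {n : ℕ}
    (hn : Good τ F n) : ∃ ρ : Equiv.Perm (Tq τ n), (∀ u, ρ (tm τ n u) = tm τ n (τ u)) ∧
      (∀ s t, (ER E τ F n hn).R (ρ s) (ρ t) = (ER E τ F n hn).R s t) ∧ ρ ^ n = 1 := by
  have hcomm : ∀ (j : ℤ) (u : V), τ ((τ ^ j) u) = (τ ^ j) (τ u) := by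
    intro j u
    have h1 : τ ((τ ^ j) u) = (τ ^ (1 + j)) u := by rw [zadd, zpow_one]
    rw [h1, add_comm, zadd, zpow_one]
  have hcomm' : ∀ (j : ℤ) (u : V), τ.symm ((τ ^ j) u) = (τ ^ j) (τ.symm u) := by
    intro j u
    rw [Equiv.symm_apply_eq, hcomm, Equiv.apply_symm_apply]
  let f : Tq τ n → Tq τ n := Quotient.lift (s := cset τ n) (fun u => tm τ n (τ u)) (by
    rintro u v ⟨m, hm⟩
    refine (tm_eq τ).2 ⟨m, ?_⟩
    rw [← hcomm, hm])
  let g : Tq τ n → Tq τ n := Quotient.lift (s := cset τ n) (fun u => tm τ n (τ.symm u)) (by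
    rintro u v ⟨m, hm⟩
    refine (tm_eq τ).2 ⟨m, ?_⟩
    rw [← hcomm', hm])
  have hf : ∀ u, f (tm τ n u) = tm τ n (τ u) := fun _ => rfl
  have hg : ∀ u, g (tm τ n u) = tm τ n (τ.symm u) := fun _ => rfl
  let ρ : Equiv.Perm (Tq τ n) := ⟨f, g, by
    intro s
    obtain ⟨u, rfl⟩ := tm_surj τ s
    rw [hf, hg, Equiv.symm_apply_apply], by
    intro s
    obtain ⟨u, rfl⟩ := tm_surj τ s
    rw [hg, hf, Equiv.apply_symm_apply]⟩
  have hρ : ∀ u, ρ (tm τ n u) = tm τ n (τ u) := fun _ => rfl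
  refine ⟨ρ, hρ, ?_, ?_⟩
  · intro s t
    ext r
    constructor
    · rintro ⟨a, b, ha, hb, hab, hr⟩
      refine ⟨(τ ^ (-1 : ℤ)) a, (τ ^ (-1 : ℤ)) b, ?_, ?_, cl_zpow _ hab, ?_⟩
      · apply ρ.injective
        rw [hρ, ← ha]
        simp
      · apply ρ.injective
        rw [hρ, ← hb]
        simp
      · rwa [R_zpow E τ hτ]
    · rintro ⟨a, b, ha, hb, hab, hr⟩
      refine ⟨τ a, τ b, ?_, ?_, ?_, ?_⟩
      · rw [← hρ, ha]
      · rw [← hρ, hb]
      · have := cl_zpow 1 hab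
        rwa [zpow_one] at this
      · rwa [hτ]
  · ext s
    obtain ⟨u, rfl⟩ := tm_surj τ s
    have h1 : ∀ (k : ℕ) (u : V), (ρ ^ k) (tm τ n u) = tm τ n ((τ ^ k) u) := by
      intro k
      induction k with
      | zero => intro u; simp
      | succ k ih =>
        intro u
        rw [pow_succ, Equiv.Perm.mul_apply, hρ, ih, pow_succ, Equiv.Perm.mul_apply]
    rw [h1, Equiv.Perm.one_apply]
    refine ((tm_eq τ).2 ⟨1, ?_⟩).symm
    rw [mul_one, zpow_natCast]

end Q9.FJP
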