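import Pool.Agent.Q30.FJ.Nov

/-!
# Products of groups along relations which both projections kill
-/

set_option autoImplicit false

namespace Q9.FJP

open Pool.Agent.Y110.FJ (ClosedE Amg S_AM)
open Pool.Agent.Y462.SS (Closed)

/-- Sets `R u v` of relations between the copies of the group `A` at `u` and at `v`: elements of
`A * A` which are killed by both projections `A * A → A`. -/
structure EvenRel (V A : Type) [Group A] where
  R : V → V → Set (Monoid.Coprod A A)
  irrefl : ∀ v, R v v = ∅
  fst : ∀ u v, ∀ r ∈ R u v, Monoid.Coprod.fst r = 1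
  snd : ∀ u v, ∀ r ∈ R u v, Monoid.Coprod.snd r = 1

variable {V A : Type} [Group A] (E : EvenRel V A)

/-- the relations in the free product of the copies of `A` -/
def EvenRel.rels : Set (Monoid.CoprodI fun _ : V => A) :=
  {z | ∃ u v, ∃ r ∈ E.R u v,
    z = Monoid.Coprod.lift (Monoid.CoprodI.of (M := fun _ : V => A) (i := u))
      (Monoid.CoprodI.of (M := fun _ : V => A) (i := v)) r}

/-- the free product of copies of `A`, indexed by `V`, modulo the relations `R u v` between the
copies at `u` and `v` -/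
abbrev EvP : Type := Monoid.CoprodI (fun _ : V => A) ⧸ Subgroup.normalClosure E.rels

/-- the copy of `A` at `v` -/
def ev (v : V) : A →* EvP E :=
  (QuotientGroup.mk' (Subgroup.normalClosure E.rels)).comp
    (Monoid.CoprodI.of (M := fun _ : V => A) (i := v))

theorem ev_rel (u v : V) (r : Monoid.Coprod A A) (hr : r ∈ E.R u v) :
    Monoid.Coprod.lift (ev E u) (ev E v) r = 1 := by
  have h1 : Monoid.Coprod.lift (ev E u) (ev E v) =
      (QuotientGroup.mk' (Subgroup.normalClosure E.rels)).comp
        (Monoid.Coprod.lift (Monoid.CoprodI.of (M := fun _ : V => A) (i := u))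
      (Monoid.CoprodI.of (M := fun _ : V => A) (i := v))) := by
    apply Monoid.Coprod.hom_ext
    · ext a
      simp [ev]
    · ext a
      simp [ev]
  rw [h1, MonoidHom.comp_apply]
  exact (QuotientGroup.eq_one_iff _).2 (Subgroup.subset_normalClosure ⟨u, v, r, hr, rfl⟩)

/-- the universal property -/
def evlift {H : Type} [Group H] (φ : V → A →* H)
    (hφ : ∀ u v, ∀ r ∈ E.R u v, Monoid.Coprod.lift (φ u) (φ v) r = 1) : EvP E →* H :=
  QuotientGroup.lift _ (Monoid.CoprodI.lift φ) (by
    intro x hx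
    have h1 : Subgroup.normalClosure E.rels ≤ (Monoid.CoprodI.lift φ).ker := by
      refine Subgroup.normalClosure_le_normal ?_
      rintro _ ⟨u, v, r, hr, rfl⟩
      show Monoid.CoprodI.lift φ _ = 1
      have h2 : (Monoid.CoprodI.lift φ).comp
          (Monoid.Coprod.lift (Monoid.CoprodI.of (M := fun _ : V => A) (i := u))
            (Monoid.CoprodI.of (M := fun _ : V => A) (i := v))) =
          Monoid.Coprod.lift (φ u) (φ v) := by
        apply Monoid.Coprod.hom_ext
        · ext a
          simp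
        · ext a
          simp
      rw [← MonoidHom.comp_apply, h2]
      exact hφ u v r hr
    exact h1 hx)

theorem evlift_ev {H : Type} [Group H] (φ : V → A →* H)
    (hφ : ∀ u v, ∀ r ∈ E.R u v, Monoid.Coprod.lift (φ u) (φ v) r = 1) (v : V) (a : A) :
    evlift E φ hφ (ev E v a) = φ v a := by
  show Monoid.CoprodI.lift φ (Monoid.CoprodI.of a) = φ v a
  rw [Monoid.CoprodI.lift_of]

variable {E} in
theorem ev_ext {H : Type} [Group H] {f g : EvP E →* H}
    (h : ∀ v a, f (ev E v a) = g (ev E v a)) : f = g := by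
  apply QuotientGroup.monoidHom_ext
  apply Monoid.CoprodI.ext_hom
  intro v
  ext a
  exact h v a

/-- the relations hold if they hold for pairs in `S` and the other vertex groups are killed -/
theorem kill {H : Type} [Group H] (φ : V → A →* H) (S : Set V) (h1 : ∀ v, v ∉ S → φ v = 1)
    (h2 : ∀ u ∈ S, ∀ v ∈ S, ∀ r ∈ E.R u v, Monoid.Coprod.lift (φ u) (φ v) r = 1) :
    ∀ u v, ∀ r ∈ E.R u v, Monoid.Coprod.lift (φ u) (φ v) r = 1 := by
  intro u v r hr
  by_cases hu : u ∈ S
  · by_cases hv : v ∈ S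
    · exact h2 u hu v hv r hr
    · have h3 : Monoid.Coprod.lift (φ u) (φ v) = (φ u).comp Monoid.Coprod.fst := by
        rw [h1 v hv]
        apply Monoid.Coprod.hom_ext
        · ext a
          simp
        · ext a
          simp
      rw [h3, MonoidHom.comp_apply, E.fst u v r hr, map_one]
  · have h3 : Monoid.Coprod.lift (φ u) (φ v) = (φ v).comp Monoid.Coprod.snd := by
      rw [h1 u hu]
      apply Monoid.Coprod.hom_ext
      · ext a
        simp
      · ext a
        simp
    rw [h3, MonoidHom.comp_apply, E.snd u v r hr, map_one]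

/-- the subgroup generated by the copies at the elements of `S` -/
def evs (S : Set V) : Subgroup (EvP E) :=
  Subgroup.closure {x | ∃ v ∈ S, ∃ a : A, x = ev E v a}

theorem ev_mem_evs {S : Set V} {v : V} (hv : v ∈ S) (a : A) : ev E v a ∈ evs E S :=
  Subgroup.subset_closure ⟨v, hv, a, rfl⟩

theorem evs_mono {S T : Set V} (h : S ⊆ T) : evs E S ≤ evs E T :=
  Subgroup.closure_mono (by
    rintro _ ⟨v, hv, a, rfl⟩
    exact ⟨v, h hv, a, rfl⟩)

variable {E} in
theorem evs_eq {S : Set V} {H : Type} [Group H] {f g : EvP E →* H}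
    (h : ∀ v ∈ S, ∀ a, f (ev E v a) = g (ev E v a)) :
    ∀ x ∈ evs E S, f x = g x := by
  intro x hx
  have h1 : evs E S ≤ f.eqLocus g := by
    rw [evs, Subgroup.closure_le]
    rintro _ ⟨v, hv, a, rfl⟩
    exact h v hv a
  exact h1 hx

/-- finite support -/
theorem ev_supp (x : EvP E) : ∃ S : Finset V, x ∈ evs E (S : Set V) := by
  classical
  obtain ⟨y, rfl⟩ := QuotientGroup.mk_surjective x
  induction y using Monoid.CoprodI.induction_on with
  | one => exact ⟨∅, Subgroup.one_mem _⟩
  | of v a => exact ⟨{v}, ev_mem_evs E (by simp) a⟩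
  | mul x y hx hy =>
    obtain ⟨S, hS⟩ := hx
    obtain ⟨T, hT⟩ := hy
    refine ⟨S ∪ T, ?_⟩
    rw [QuotientGroup.mk_mul]
    refine Subgroup.mul_mem _ (evs_mono E ?_ hS) (evs_mono E ?_ hT)
    · intro v hv
      simp only [Finset.coe_union, Set.mem_union]
      exact Or.inl hv
    · intro v hv
      simp only [Finset.coe_union, Set.mem_union]
      exact Or.inr hv

/-- maps between such groups -/
theorem evmap {T : Type} (E' : EvenRel T A) (S : Set V) (ι : S → T)
    (hι : ∀ x y : S, E.R x y ⊆ E'.R (ι x) (ι y)) :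
    ∃ F : EvP E →* EvP E', (∀ (v : S) (a : A), F (ev E v a) = ev E' (ι v) a) ∧
      ∀ v, v ∉ S → ∀ a : A, F (ev E v a) = 1 := by
  classical
  have hex : ∀ v : V, ∃ φ : A →* EvP E',
      (∀ (h : v ∈ S), φ = ev E' (ι ⟨v, h⟩)) ∧ (v ∉ S → φ = 1) := by
    intro v
    by_cases h : v ∈ S
    · exact ⟨ev E' (ι ⟨v, h⟩), fun _ => rfl, fun h' => absurd h h'⟩
    · exact ⟨1, fun h' => absurd h' h, fun _ => rfl⟩
  choose φ hφ hφ' using hex
  refine ⟨evlift E φ (kill E φ S hφ' ?_), ?_, ?_⟩
  · intro u hu v hv r hr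
    rw [hφ u hu, hφ v hv]
    exact ev_rel E' _ _ r (hι ⟨u, hu⟩ ⟨v, hv⟩ hr)
  · intro v a
    rw [evlift_ev, hφ v v.2]
  · intro v hv a
    rw [evlift_ev, hφ' v hv, MonoidHom.one_apply]

/-- the retraction onto the subgroup of a set of vertices -/
theorem evret (S : Set V) : ∃ ρ : EvP E →* ↥(evs E S),
    (∀ v (hv : v ∈ S) (a : A), ρ (ev E v a) = ⟨ev E v a, ev_mem_evs E hv a⟩) ∧
    (∀ v, v ∉ S → ∀ a : A, ρ (ev E v a) = 1) ∧ ∀ x : EvP E, (hx : x ∈ evs E S) → ρ x = ⟨x, hx⟩ := by
  obtain ⟨F, hF1, hF2⟩ := evmap E E S (fun v => (v : V)) (fun _ _ => subset_rfl)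
  have hF : ∀ x, F x ∈ evs E S := by
    have h1 : (evs E S).comap F = ⊤ := by
      rw [eq_top_iff]
      intro x _
      obtain ⟨T, hT⟩ := ev_supp E x
      refine (show evs E (T : Set V) ≤ (evs E S).comap F from ?_) hT
      refine (Subgroup.closure_le _).2 ?_
      rintro _ ⟨v, -, a, rfl⟩
      by_cases hv : v ∈ S
      · show F (ev E v a) ∈ evs E S
        rw [hF1 ⟨v, hv⟩]
        exact ev_mem_evs E hv a
      · show F (ev E v a) ∈ evs E S
        rw [hF2 v hv]
        exact Subgroup.one_mem _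
    intro x
    exact (h1 ▸ Subgroup.mem_top x : x ∈ (evs E S).comap F)
  refine ⟨F.codRestrict _ hF, ?_, ?_, ?_⟩
  · intro v hv a
    exact Subtype.ext (hF1 ⟨v, hv⟩ a)
  · intro v hv a
    exact Subtype.ext (hF2 v hv a)
  · intro x hx
    apply Subtype.ext
    exact evs_eq (f := F) (g := MonoidHom.id _) (fun v hv a => hF1 ⟨v, hv⟩ a) x hx

variable {E} in
theorem evs_ext {S : Set V} {H : Type} [Group H] {f g : ↥(evs E S) →* H}
    (h : ∀ v (hv : v ∈ S) (a : A), f ⟨ev E v a, ev_mem_evs E hv a⟩ =
      g ⟨ev E v a, ev_mem_evs E hv a⟩) : f = g := by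
  obtain ⟨ρ, h1, h2, h3⟩ := evret E S
  have h4 : f.comp ρ = g.comp ρ := by
    apply ev_ext
    intro v a
    by_cases hv : v ∈ S
    · rw [MonoidHom.comp_apply, MonoidHom.comp_apply, h1 v hv, h v hv]
    · rw [MonoidHom.comp_apply, MonoidHom.comp_apply, h2 v hv, map_one, map_one]
  ext x
  have h5 := DFunLike.congr_fun h4 (x : EvP E)
  rwa [MonoidHom.comp_apply, MonoidHom.comp_apply, h3 x x.2] at h5

theorem rel_tr {K H : Type} [Group K] [Group H] (j : K →* EvP E) (hj : Function.Injective j)
    (f : K →* H) {u v : V} (a b : A →* K) (ha : j.comp a = ev E u) (hb : j.comp b = ev E v)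
    (r : Monoid.Coprod A A) (hr : r ∈ E.R u v) :
    Monoid.Coprod.lift (f.comp a) (f.comp b) r = 1 := by
  have h1 : Monoid.Coprod.lift (f.comp a) (f.comp b) = f.comp (Monoid.Coprod.lift a b) := by
    apply Monoid.Coprod.hom_ext
    · ext x
      simp
    · ext x
      simp
  have h2 : j.comp (Monoid.Coprod.lift a b) = Monoid.Coprod.lift (ev E u) (ev E v) := by
    rw [← ha, ← hb]
    apply Monoid.Coprod.hom_ext
    · ext x
      simp
    · ext x
      simp
  have h3 : Monoid.Coprod.lift a b r = 1 := by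
    apply hj
    rw [map_one, ← MonoidHom.comp_apply, h2]
    exact ev_rel E u v r hr
  rw [h1, MonoidHom.comp_apply, h3, map_one]

/-- the copy of `A` at `v` in the subgroup of `S` -/
def evin {S : Set V} {v : V} (hv : v ∈ S) : A →* ↥(evs E S) :=
  (ev E v).codRestrict _ fun a => ev_mem_evs E hv a

/-- the amalgam decomposition at two vertices without relations -/
theorem ev_amg (S : Set V) {u v : V} (huv : u ≠ v) (h1 : E.R u v = ∅) (h2 : E.R v u = ∅) :
    Amg ((evs E (S \ {u})).subgroupOf (evs E S)) ((evs E (S \ {v})).subgroupOf (evs E S))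
      ((evs E (S \ {u, v})).subgroupOf (evs E S)) := by
  classical
  have hu : S \ {u, v} ⊆ S \ {u} := fun x hx => ⟨hx.1, fun h => hx.2 (Or.inl h)⟩
  have hv : S \ {u, v} ⊆ S \ {v} := fun x hx => ⟨hx.1, fun h => hx.2 (Or.inr h)⟩
  have hSu : evs E (S \ {u}) ≤ evs E S := evs_mono E Set.sdiff_subset
  have hSv : evs E (S \ {v}) ≤ evs E S := evs_mono E Set.sdiff_subset
  refine ⟨?_, ?_, ?_, ?_⟩
  · exact fun x hx => evs_mono E hu hx
  · exact fun x hx => evs_mono E hv hx
  · rw [eq_top_iff]
    intro x _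
    have h3 : evs E S ≤ ((evs E (S \ {u})).subgroupOf (evs E S) ⊔
        (evs E (S \ {v})).subgroupOf (evs E S)).map (evs E S).subtype := by
      refine (Subgroup.closure_le _).2 ?_
      rintro _ ⟨w, hw, a, rfl⟩
      refine ⟨⟨ev E w a, ev_mem_evs E hw a⟩, ?_, rfl⟩
      by_cases hwu : w = u
      · refine (le_sup_right : (evs E (S \ {v})).subgroupOf (evs E S) ≤ _) ?_
        exact ev_mem_evs E (S := S \ {v}) ⟨hw, fun h => huv (hwu.symm.trans h)⟩ a
      · refine (le_sup_left : (evs E (S \ {u})).subgroupOf (evs E S) ≤ _) ?_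
        exact ev_mem_evs E (S := S \ {u}) ⟨hw, hwu⟩ a
    obtain ⟨y, hy, hyx⟩ := h3 x.2
    rwa [Subtype.ext hyx] at hy
  · intro H _ f g hfg
    let ju : ↥(evs E (S \ {u})) →* ↥((evs E (S \ {u})).subgroupOf (evs E S)) :=
      (Subgroup.subgroupOfEquivOfLe hSu).symm.toMonoidHom
    let jv : ↥(evs E (S \ {v})) →* ↥((evs E (S \ {v})).subgroupOf (evs E S)) :=
      (Subgroup.subgroupOfEquivOfLe hSv).symm.toMonoidHom
    have hju : ∀ x, ((ju x : ↥(evs E S)) : EvP E) = x := fun _ => rfl
    have hjv : ∀ x, ((jv x : ↥(evs E S)) : EvP E) = x := fun _ => rfl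
    have hex : ∀ w : V, ∃ φ : A →* H,
        (∀ (h : w ∈ S \ {u}), φ = (f.comp ju).comp (evin E h)) ∧
        (∀ (h : w ∈ S \ {v}), φ = (g.comp jv).comp (evin E h)) ∧ (w ∉ S → φ = 1) := by
      intro w
      by_cases hw : w ∈ S
      · by_cases hwu : w = u
        · have hwv : w ∈ S \ {v} := ⟨hw, fun h => huv (hwu.symm.trans h)⟩
          exact ⟨(g.comp jv).comp (evin E hwv), fun h => absurd hwu h.2, fun _ => rfl,
            fun h => absurd hw h⟩
        · refine ⟨(f.comp ju).comp (evin E ⟨hw, hwu⟩), fun _ => rfl, fun h => ?_,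
            fun h => absurd hw h⟩
          ext a
          exact hfg ⟨ev E w a, ev_mem_evs E hw a⟩ (ev_mem_evs E (S := S \ {u, v})
            ⟨hw, fun h' => h'.elim hwu h.2⟩ a)
      · exact ⟨1, fun h => absurd h.1 hw, fun h => absurd h.1 hw, fun _ => rfl⟩
    choose φ hφu hφv hφ using hex
    have hrel : ∀ w ∈ S, ∀ w' ∈ S, ∀ r ∈ E.R w w', Monoid.Coprod.lift (φ w) (φ w') r = 1 := by
      intro w hw w' hw' r hr
      by_cases hwu : w = u ∨ w' = u
      · have hwv : w ≠ v := by
          rintro rfl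
          rcases hwu with h | h
          · exact huv h.symm
          · subst h
            rw [h2] at hr
            exact hr
        have hwv' : w' ≠ v := by
          rintro rfl
          rcases hwu with h | h
          · subst h
            rw [h1] at hr
            exact hr
          · exact huv h.symm
        rw [hφv w ⟨hw, hwv⟩, hφv w' ⟨hw', hwv'⟩]
        exact rel_tr E (evs E (S \ {v})).subtype Subtype.val_injective (g.comp jv)
          (evin E ⟨hw, hwv⟩) (evin E ⟨hw', hwv'⟩) rfl rfl r hr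
      · push Not at hwu
        rw [hφu w ⟨hw, hwu.1⟩, hφu w' ⟨hw', hwu.2⟩]
        exact rel_tr E (evs E (S \ {u})).subtype Subtype.val_injective (f.comp ju)
          (evin E ⟨hw, hwu.1⟩) (evin E ⟨hw', hwu.2⟩) rfl rfl r hr
    let h := evlift E φ (kill E φ S hφ hrel)
    have hh : ∀ w a, h (ev E w a) = φ w a := evlift_ev E φ _
    refine ⟨h.comp (evs E S).subtype, ?_, ?_⟩
    · intro x
      have h3 : (h.comp (evs E (S \ {u})).subtype) = f.comp ju := by
        apply evs_ext
        intro w hw a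
        show h (ev E w a) = _
        rw [hh, hφu w hw]
        rfl
      exact DFunLike.congr_fun h3 ⟨((x : ↥(evs E S)) : EvP E), x.2⟩
    · intro x
      have h3 : (h.comp (evs E (S \ {v})).subtype) = g.comp jv := by
        apply evs_ext
        intro w hw a
        show h (ev E w a) = _
        rw [hh, hφv w hw]
        rfl
      exact DFunLike.congr_fun h3 ⟨((x : ↥(evs E S)) : EvP E), x.2⟩

variable {C : ∀ (G : Type) [Group G], Prop}

/-- a set of vertices any two of which are related -/
def Clq (σ : Finset V) : Prop :=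
  ∀ u ∈ σ, ∀ v ∈ σ, u ≠ v → (E.R u v).Nonempty ∨ (E.R v u).Nonempty

theorem ev_fin (hC : ClosedE C) (hcl : ∀ σ : Finset V, Clq E σ → C ↥(evs E (σ : Set V))) :
    ∀ (n : ℕ) (S : Finset V), S.card = n → C ↥(evs E (S : Set V)) := by
  classical
  intro n
  induction n with
  | zero =>
    intro S hS
    refine hcl S ?_
    intro u hu
    rw [Finset.card_eq_zero] at hS
    subst hS
    exact absurd hu (Finset.notMem_empty u)
  | succ n ih =>
    intro S hS
    by_cases hq : Clq E S
    · exact hcl S hq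
    · unfold Clq at hq
      push Not at hq
      obtain ⟨u, hu, v, hv, huv, h1, h2⟩ := hq
      have hSu : C ↥(evs E ((S : Set V) \ {u})) := by
        have := ih (S.erase u) (by rw [Finset.card_erase_of_mem hu, hS]; rfl)
        rwa [Finset.coe_erase] at this
      have hSv : C ↥(evs E ((S : Set V) \ {v})) := by
        have := ih (S.erase v) (by rw [Finset.card_erase_of_mem hv, hS]; rfl)
        rwa [Finset.coe_erase] at this
      obtain ⟨ρ, -, -, hρ⟩ := evret E ((S : Set V) \ {u})
      obtain ⟨ρ', -, -, hρ'⟩ := evret E ((S : Set V) \ {v})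
      refine Pool.Agent.Y417.FJ.t_am
        (Pool.Agent.Y961.FJ.t_perm Pool.Agent.Y529.FJ.t_ext) C hC ↥(evs E (S : Set V))
        (↥(evs E ((S : Set V) \ {u})) × ↥(evs E ((S : Set V) \ {v}))) _ _ _
        (ev_amg E (S : Set V) huv h1 h2)
        ((ρ.comp (evs E (S : Set V)).subtype).prod (ρ'.comp (evs E (S : Set V)).subtype)) ?_ ?_
        (hC.base.prod _ _ hSu hSv)
      · intro a ha h
        have h3 : ρ (a : EvP E) = 1 := congrArg Prod.fst h
        rw [hρ a ha] at h3
        exact Subtype.ext (show (a : EvP E) = 1 from congrArg Subtype.val h3)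
      · intro a ha h
        have h3 : ρ' (a : EvP E) = 1 := congrArg Prod.snd h
        rw [hρ' a ha] at h3
        exact Subtype.ext (show (a : EvP E) = 1 from congrArg Subtype.val h3)

/-- **membership from cliques** -/
theorem ev_mem (hC : ClosedE C) (hcl : ∀ σ : Finset V, Clq E σ → C ↥(evs E (σ : Set V))) :
    C (EvP E) := by
  classical
  refine Pool.Agent.Y430.SS.of_directed hC.base _ (Finset V) (fun i j => ?_)
    (fun s => evs E (s : Set V)) (fun s t h => evs_mono E (by exact_mod_cast h))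
    (ev_supp E) (fun S => ev_fin E hC hcl _ S rfl)
  exact ⟨i ∪ j, Finset.subset_union_left, Finset.subset_union_right⟩

end Q9.FJP
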